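import Pool.Agent.helper58.FS.Defs

/-!
# [FS-E] generic positions exist
-/

set_option autoImplicit false

open scoped Matrix
open Pool.Agent.helper73.TC

namespace Pool.Agent.helper58.FS

variable {V : Type} [Fintype V] [DecidableEq V] (G : SimpleGraph V) {K : Type} [Field K]

omit [Fintype V] in
theorem h80_det (ρ : ℕ) (T : Finset V) (hT : T.card = ρ) :
    ∃ f : MvPolynomial (V × Fin ρ) K, f ≠ 0 ∧
      ∀ q : V → Fin ρ → K, MvPolynomial.eval (fun x => q x.1 x.2) f ≠ 0 →
        LinearIndependent K (fun v : T => q v) := by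
  classical
  let e : T ≃ Fin ρ := T.equivFinOfCardEq hT
  let M : Matrix (Fin ρ) (Fin ρ) (MvPolynomial (V × Fin ρ) K) :=
    Matrix.of fun i j => MvPolynomial.X (((e.symm i : T) : V), j)
  have hev : ∀ q : V → Fin ρ → K, MvPolynomial.eval (fun x => q x.1 x.2) M.det =
      (Matrix.of fun i j => q ((e.symm i : T) : V) j).det := by
    intro q
    rw [RingHom.map_det]
    congr 1
    ext i j
    simp [M]
  refine ⟨M.det, ?_, ?_⟩
  · intro h0
    have h1 := hev (fun v j => if h : v ∈ T then (if e ⟨v, h⟩ = j then 1 else 0) else 0)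
    rw [h0, map_zero] at h1
    have h2 : (Matrix.of fun i j => (fun (v : V) (j : Fin ρ) =>
        if h : v ∈ T then (if e ⟨v, h⟩ = j then (1 : K) else 0) else 0)
          ((e.symm i : T) : V) j) = (1 : Matrix (Fin ρ) (Fin ρ) K) := by
      ext i j
      simp [Matrix.one_apply]
    rw [h2, Matrix.det_one] at h1
    exact zero_ne_one h1
  · intro q hq
    rw [hev] at hq
    have h1 : LinearIndependent K (fun i : Fin ρ => q ((e.symm i : T) : V)) :=
      Matrix.linearIndependent_rows_of_det_ne_zero hq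
    have h2 := h1.comp e e.injective
    convert h2 using 2 with v
    simp

/-- generic positions: finitely many generic conditions hold at the same time -/
theorem exists_generic [Infinite K] (ρ : ℕ) (S : Finset (Finset V)) (hS : ∀ W ∈ S, GRig G K ρ W) :
    ∃ q : V → Fin ρ → K, (∀ W ∈ S, Rig G ρ q W) ∧
      ∀ T : Finset V, T.card = ρ → LinearIndependent K (fun v : T => q v) := by
  classical
  have hS' : ∀ W : Finset V, ∃ f : MvPolynomial (V × Fin ρ) K, f ≠ 0 ∧ (W ∈ S →
      ∀ q : V → Fin ρ → K, MvPolynomial.eval (fun x => q x.1 x.2) f ≠ 0 → Rig G ρ q W) := by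
    intro W
    by_cases hW : W ∈ S
    · obtain ⟨f, hf, h⟩ := hS W hW
      exact ⟨f, hf, fun _ => h⟩
    · exact ⟨1, one_ne_zero, fun h => absurd h hW⟩
  have hT' : ∀ T : Finset V, ∃ f : MvPolynomial (V × Fin ρ) K, f ≠ 0 ∧ (T.card = ρ →
      ∀ q : V → Fin ρ → K, MvPolynomial.eval (fun x => q x.1 x.2) f ≠ 0 →
        LinearIndependent K (fun v : T => q v)) := by
    intro T
    by_cases hT : T.card = ρ
    · obtain ⟨f, hf, h⟩ := h80_det (K := K) ρ T hT
      exact ⟨f, hf, fun _ => h⟩
    · exact ⟨1, one_ne_zero, fun h => absurd h hT⟩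
  choose f hf0 hf using hS'
  choose g hg0 hg using hT'
  set P : MvPolynomial (V × Fin ρ) K := (∏ W : Finset V, f W) * ∏ T : Finset V, g T with hP
  have hP0 : P ≠ 0 :=
    mul_ne_zero (Finset.prod_ne_zero_iff.mpr fun W _ => hf0 W)
      (Finset.prod_ne_zero_iff.mpr fun T _ => hg0 T)
  obtain ⟨x, hx⟩ : ∃ x : V × Fin ρ → K, MvPolynomial.eval x P ≠ 0 := by
    by_contra hcon
    push Not at hcon
    apply hP0
    apply MvPolynomial.funext
    intro x
    rw [hcon x, map_zero]
  have hx' : (fun y : V × Fin ρ => (fun (v : V) (j : Fin ρ) => x (v, j)) y.1 y.2) = x := by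
    funext y
    rfl
  rw [hP, map_mul, map_prod, map_prod] at hx
  have h1 := left_ne_zero_of_mul hx
  have h2 := right_ne_zero_of_mul hx
  rw [Finset.prod_ne_zero_iff] at h1 h2
  refine ⟨fun v j => x (v, j), ?_, ?_⟩
  · intro W hW
    exact hf W hW _ (by rw [hx']; exact h1 W (Finset.mem_univ _))
  · intro T hT
    exact hg T hT (fun v j => x (v, j)) (by rw [hx']; exact h2 T (Finset.mem_univ _))

set_option linter.unusedSectionVars false in
/-- `K^1` -/
theorem grig_one (W : Finset V) : GRig G K 1 W := by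
  classical
  refine ⟨∏ v ∈ W, MvPolynomial.X (v, 0), ?_, ?_⟩
  · rw [Finset.prod_ne_zero_iff]
    intro v _
    exact MvPolynomial.X_ne_zero _
  · intro q hq w hw
    refine ⟨0, by simp, ?_⟩
    intro v hv
    rw [map_prod, Finset.prod_ne_zero_iff] at hq
    have h1 := hq v hv
    rw [MvPolynomial.eval_X] at h1
    have h2 := hw.1 v hv
    rw [dotProduct, Fin.sum_univ_one] at h2
    have h3 : w v 0 = 0 := (mul_eq_zero.mp h2).resolve_left h1
    funext i
    rw [Subsingleton.elim i 0, h3]
    simp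

end Pool.Agent.helper58.FS
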