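import Pool.Agent.helper58.FS.Defs

/-!
# [FS-F] from motions to the frozen statement
-/

set_option autoImplicit false

open scoped Matrix
open Pool.Agent.helper73.TC

namespace Pool.Agent.helper58.FS

/-- the linear form with coefficients `b` -/
noncomputable def h80_lin {K : Type} [Field K] {n : ℕ} (b : Fin n → K) : MvPolynomial (Fin n) K :=
  ∑ i : Fin n, MvPolynomial.C (b i) * MvPolynomial.X i

theorem h80_coeff_mul_lin {K : Type} [Field K] {n : ℕ} (b : Fin n → K)
    (g : MvPolynomial (Fin n) K) (m : Fin n →₀ ℕ) :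
    MvPolynomial.coeff m (g * h80_lin b) =
      ∑ i ∈ m.support, b i * MvPolynomial.coeff (m - Finsupp.single i 1) g := by
  classical
  unfold h80_lin
  rw [Finset.mul_sum, MvPolynomial.coeff_sum]
  have h1 : ∀ i : Fin n, MvPolynomial.coeff m (g * (MvPolynomial.C (b i) * MvPolynomial.X i)) =
      if i ∈ m.support then b i * MvPolynomial.coeff (m - Finsupp.single i 1) g else 0 := by
    intro i
    have h2 : g * (MvPolynomial.C (b i) * MvPolynomial.X i) =
        MvPolynomial.C (b i) * (g * MvPolynomial.X i) := by ring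
    rw [h2, MvPolynomial.coeff_C_mul, MvPolynomial.coeff_mul_X']
    split_ifs <;> simp
  rw [Finset.sum_congr rfl (fun i _ => h1 i), Finset.sum_ite_mem, Finset.univ_inter]

theorem h80_coeff_uv {K : Type} [Field K] {n : ℕ} (b : Fin n → K)
    (g : MvPolynomial (Fin n) K) {u v : Fin n} (huv : u ≠ v) :
    MvPolynomial.coeff (Finsupp.single u 1 + Finsupp.single v 1) (g * h80_lin b) =
      b v * MvPolynomial.coeff (Finsupp.single u 1) g +
      b u * MvPolynomial.coeff (Finsupp.single v 1) g := by
  classical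
  have hs : (Finsupp.single u 1 + Finsupp.single v 1 : Fin n →₀ ℕ).support = {u, v} := by
    ext i
    simp only [Finsupp.mem_support_iff, Finsupp.add_apply, Finsupp.single_apply,
      Finset.mem_insert, Finset.mem_singleton]
    by_cases h1 : u = i <;> by_cases h2 : v = i <;> simp [h1, h2, eq_comm]
  rw [h80_coeff_mul_lin, hs, Finset.sum_pair huv]
  have e1 : (Finsupp.single u 1 + Finsupp.single v 1 : Fin n →₀ ℕ) - Finsupp.single u 1 =
      Finsupp.single v 1 := add_tsub_cancel_left _ _
  have e2 : (Finsupp.single u 1 + Finsupp.single v 1 : Fin n →₀ ℕ) - Finsupp.single v 1 =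
      Finsupp.single u 1 := add_tsub_cancel_right _ _
  rw [e1, e2, add_comm]

theorem h80_coeff_vv {K : Type} [Field K] {n : ℕ} (b : Fin n → K)
    (g : MvPolynomial (Fin n) K) (v : Fin n) :
    MvPolynomial.coeff (Finsupp.single v 1 + Finsupp.single v 1) (g * h80_lin b) =
      b v * MvPolynomial.coeff (Finsupp.single v 1) g := by
  classical
  have hs : (Finsupp.single v 1 + Finsupp.single v 1 : Fin n →₀ ℕ).support = {v} := by
    ext i
    simp only [Finsupp.mem_support_iff, Finsupp.add_apply, Finsupp.single_apply,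
      Finset.mem_singleton]
    by_cases h2 : v = i <;> simp [h2, eq_comm]
  rw [h80_coeff_mul_lin, hs, Finset.sum_singleton]
  have e1 : (Finsupp.single v 1 + Finsupp.single v 1 : Fin n →₀ ℕ) - Finsupp.single v 1 =
      Finsupp.single v 1 := add_tsub_cancel_left _ _
  rw [e1]

/-- coefficients of the elements of the monomial ideal at faces vanish -/
theorem h80_mono {K : Type} [Field K] {n : ℕ} (Δ : Finset (Finset (Fin n)))
    (hdown : ∀ σ ∈ Δ, ∀ τ : Finset (Fin n), τ ⊆ σ → τ ∈ Δ)
    (a : MvPolynomial (Fin n) K)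
    (ha : a ∈ Ideal.span ((fun σ : Finset (Fin n) =>
      ∏ i ∈ σ, (MvPolynomial.X i : MvPolynomial (Fin n) K)) '' {σ : Finset (Fin n) | σ ∉ Δ})) :
    ∀ m : Fin n →₀ ℕ, m.support ∈ Δ → MvPolynomial.coeff m a = 0 := by
  classical
  induction ha using Submodule.span_induction with
  | mem x hx =>
    obtain ⟨σ, hσ, rfl⟩ := hx
    intro m hm
    have h1 : (∏ i ∈ σ, (MvPolynomial.X i : MvPolynomial (Fin n) K)) =
        MvPolynomial.monomial (∑ i ∈ σ, Finsupp.single i 1) 1 := by
      rw [MvPolynomial.monomial_sum_one]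
      rfl
    show MvPolynomial.coeff m (∏ i ∈ σ, (MvPolynomial.X i : MvPolynomial (Fin n) K)) = 0
    rw [h1, MvPolynomial.coeff_monomial, if_neg]
    rintro rfl
    apply hσ
    have h2 : (∑ i ∈ σ, Finsupp.single i 1 : Fin n →₀ ℕ).support = σ := by
      ext j
      simp [Finsupp.finsetSum_apply, Finsupp.single_apply]
    rw [h2] at hm
    exact hm
  | zero => intro m _; simp
  | add x y _ _ hx hy =>
    intro m hm
    rw [MvPolynomial.coeff_add, hx m hm, hy m hm, add_zero]
  | smul r x _ hx =>
    intro m hm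
    rw [smul_eq_mul, MvPolynomial.coeff_mul]
    apply Finset.sum_eq_zero
    intro p hp
    rw [Finset.HasAntidiagonal.mem_antidiagonal] at hp
    have h1 : p.2.support ⊆ m.support := by
      intro i hi
      rw [Finsupp.mem_support_iff] at hi ⊢
      rw [← hp, Finsupp.add_apply]
      omega
    rw [hx p.2 (hdown _ hm _ h1), mul_zero]

theorem h80_span {K : Type} [Field K] {n d : ℕ} (c : Fin (d + 2) × Fin n → K)
    (b : MvPolynomial (Fin n) K)
    (hb : b ∈ Ideal.span ((fun k : Fin (d + 2) =>
      ∑ i : Fin n, MvPolynomial.C (c (k, i)) * MvPolynomial.X i) ''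
                {k : Fin (d + 2) | (k : ℕ) ≤ d})) :
    ∃ g : Fin (d + 2) → MvPolynomial (Fin n) K, g (Fin.last (d + 1)) = 0 ∧
      b = ∑ k : Fin (d + 2), g k * h80_lin (fun i => c (k, i)) := by
  classical
  induction hb using Submodule.span_induction with
  | mem x hx =>
    obtain ⟨k, hk, rfl⟩ := hx
    refine ⟨Pi.single k 1, ?_, ?_⟩
    · rw [Pi.single_eq_of_ne]
      rintro rfl
      simp at hk
    · rw [Finset.sum_eq_single k]
      · simp [h80_lin]
      · intro j _ hj
        rw [Pi.single_eq_of_ne hj, zero_mul]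
      · simp
  | zero => exact ⟨0, rfl, by simp⟩
  | add x y _ _ hx hy =>
    obtain ⟨g, hg, rfl⟩ := hx
    obtain ⟨g', hg', rfl⟩ := hy
    refine ⟨g + g', by simp [hg, hg'], ?_⟩
    rw [← Finset.sum_add_distrib]
    exact Finset.sum_congr rfl fun k _ => by simp [add_mul]
  | smul r x _ hx =>
    obtain ⟨g, hg, rfl⟩ := hx
    refine ⟨fun k => r * g k, by simp [hg], ?_⟩
    rw [smul_eq_mul, Finset.mul_sum]
    exact Finset.sum_congr rfl fun k _ => by ring

theorem h80_linear {K : Type} [Field K] {n : ℕ} (ℓ : MvPolynomial (Fin n) K)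
    (hℓ : ℓ.IsHomogeneous 1) :
    ℓ = h80_lin (fun v => MvPolynomial.coeff (Finsupp.single v 1) ℓ) := by
  classical
  ext m
  unfold h80_lin
  rw [MvPolynomial.coeff_sum]
  have h1 : ∀ v : Fin n, MvPolynomial.coeff m (MvPolynomial.C
      (MvPolynomial.coeff (Finsupp.single v 1) ℓ) * MvPolynomial.X v) =
      if Finsupp.single v 1 = m then MvPolynomial.coeff m ℓ else 0 := by
    intro v
    rw [MvPolynomial.coeff_C_mul, MvPolynomial.coeff_X]
    split_ifs with h
    · rw [h, mul_one]
    · rw [mul_zero]
  rw [Finset.sum_congr rfl (fun v _ => h1 v)]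
  by_cases hm : MvPolynomial.coeff m ℓ = 0
  · simp [hm]
  · have h2 := hℓ hm
    have h3 : ∑ i : Fin n, m i = 1 := by
      have : Finsupp.weight (1 : Fin n → ℕ) m = ∑ i : Fin n, m i := by
        rw [Finsupp.weight_apply, Finsupp.sum_fintype _ _ (by simp)]
        simp
      rw [← this]
      exact h2
    obtain ⟨v, hv⟩ : ∃ v, m v ≠ 0 := by
      by_contra hcon
      push Not at hcon
      rw [Finset.sum_eq_zero (fun i _ => hcon i)] at h3
      omega
    have h4 : Finsupp.single v 1 = m := by
      have h5 : m v + ∑ i ∈ Finset.univ.erase v, m i = 1 := by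
        rw [Finset.add_sum_erase _ _ (Finset.mem_univ v)]
        exact h3
      have h6 : m v = 1 := by omega
      have h7 : ∑ i ∈ Finset.univ.erase v, m i = 0 := by omega
      rw [Finset.sum_eq_zero_iff] at h7
      ext i
      rw [Finsupp.single_apply]
      split_ifs with h
      · rw [← h, h6]
      · rw [h7 i (by simp [Ne.symm h])]
    rw [Finset.sum_eq_single v]
    · rw [if_pos h4]
    · intro i _ hi
      rw [if_neg]
      intro h
      rw [← h4] at h
      exact hi (Finsupp.single_left_injective one_ne_zero h)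
    · simp

theorem algebra_of_grig (K : Type) [Field K] [CharZero K] (d n : ℕ)
    (Δ : Finset (Finset (Fin n)))
    (hdown : ∀ σ ∈ Δ, ∀ τ : Finset (Fin n), τ ⊆ σ → τ ∈ Δ)
    (hvert : ∀ i : Fin n, ({i} : Finset (Fin n)) ∈ Δ)
    (h : GRig (gr Δ) K (d + 2) Finset.univ) :
    ∃ f : MvPolynomial (Fin (d + 2) × Fin n) K, f ≠ 0 ∧
      ∀ c : Fin (d + 2) × Fin n → K, MvPolynomial.eval c f ≠ 0 →
        ∀ ℓ : MvPolynomial (Fin n) K, ℓ.IsHomogeneous 1 →
          (∑ i : Fin n, MvPolynomial.C (c (Fin.last (d + 1), i)) * MvPolynomial.X i) * ℓ ∈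
            (Ideal.span ((fun σ : Finset (Fin n) => ∏ i ∈ σ, (MvPolynomial.X i : MvPolynomial (Fin n) K)) ''
                {σ : Finset (Fin n) | σ ∉ Δ}) ⊔
             Ideal.span ((fun k : Fin (d + 2) => ∑ i : Fin n, MvPolynomial.C (c (k, i)) * MvPolynomial.X i) ''
                {k : Fin (d + 2) | (k : ℕ) ≤ d})) →
          ℓ ∈
            (Ideal.span ((fun σ : Finset (Fin n) => ∏ i ∈ σ, (MvPolynomial.X i : MvPolynomial (Fin n) K)) ''
                {σ : Finset (Fin n) | σ ∉ Δ}) ⊔
             Ideal.span ((fun k : Fin (d + 2) => ∑ i : Fin n, MvPolynomial.C (c (k, i)) * MvPolynomial.X i) ''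
                {k : Fin (d + 2) | (k : ℕ) ≤ d})) := by
  classical
  obtain ⟨f, hf0, hf⟩ := h
  refine ⟨MvPolynomial.rename Prod.swap f, ?_, ?_⟩
  · intro h0
    apply hf0
    apply MvPolynomial.rename_injective _ Prod.swap_injective
    rw [h0, map_zero]
  intro c hc ℓ hℓ hmem
  rw [MvPolynomial.eval_rename] at hc
  have hrig := hf (fun v k => c (k, v)) hc
  obtain ⟨a, ha, b, hb, hab⟩ := Submodule.mem_sup.mp hmem
  obtain ⟨g, hg, rfl⟩ := h80_span c b hb
  have ha' := h80_mono Δ hdown a ha
  -- the relation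
  let G : Fin (d + 2) → MvPolynomial (Fin n) K :=
    fun k => if k = Fin.last (d + 1) then -ℓ else g k
  have hG : a + ∑ k : Fin (d + 2), G k * h80_lin (fun i => c (k, i)) = 0 := by
    have h1 : ∑ k : Fin (d + 2), G k * h80_lin (fun i => c (k, i)) =
        ∑ k : Fin (d + 2), g k * h80_lin (fun i => c (k, i)) -
          ℓ * h80_lin (fun i => c (Fin.last (d + 1), i)) := by
      have h2 : ∀ k : Fin (d + 1), G k.castSucc = g k.castSucc := fun k => by
        simp only [G]
        rw [if_neg (Fin.castSucc_lt_last k).ne]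
      have hGl : G (Fin.last (d + 1)) = -ℓ := if_pos rfl
      have h3 := Fin.sum_univ_castSucc (fun k : Fin (d + 2) => G k * h80_lin (fun i => c (k, i)))
      have h4 := Fin.sum_univ_castSucc (fun k : Fin (d + 2) => g k * h80_lin (fun i => c (k, i)))
      rw [h3, h4, hGl, hg, Finset.sum_congr rfl (fun k _ => by rw [h2 k])]
      ring
    rw [h1, ← add_sub_assoc, hab]
    unfold h80_lin
    ring
  have hcoef : ∀ m : Fin n →₀ ℕ, m.support ∈ Δ →
      ∑ k : Fin (d + 2), MvPolynomial.coeff m (G k * h80_lin (fun i => c (k, i))) = 0 := by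
    intro m hm
    have h1 := congrArg (MvPolynomial.coeff m) hG
    rw [MvPolynomial.coeff_add, ha' m hm, MvPolynomial.coeff_sum, zero_add] at h1
    simpa using h1
  have hmot : Motion (gr Δ) (d + 2) (fun v k => c (k, v))
      (fun v k => - MvPolynomial.coeff (Finsupp.single v 1) (G k)) Finset.univ := by
    constructor
    · intro v _
      have h1 := hcoef (Finsupp.single v 1 + Finsupp.single v 1) (by
        have hs : (Finsupp.single v 1 + Finsupp.single v 1 : Fin n →₀ ℕ).support = {v} := by
          ext i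
          simp only [Finsupp.mem_support_iff, Finsupp.add_apply, Finsupp.single_apply,
            Finset.mem_singleton]
          by_cases h2 : v = i <;> simp [h2, eq_comm]
        rw [hs]
        exact hvert v)
      rw [Finset.sum_congr rfl (fun k _ => h80_coeff_vv _ _ v)] at h1
      simp only [dotProduct, mul_neg, Finset.sum_neg_distrib]
      rw [h1, neg_zero]
    · intro u _ v _ huv
      have huv' : u ≠ v := huv.1
      have h1 := hcoef (Finsupp.single u 1 + Finsupp.single v 1) (by
        have hs : (Finsupp.single u 1 + Finsupp.single v 1 : Fin n →₀ ℕ).support ⊆ {u, v} := by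
          refine Finsupp.support_add.trans ?_
          intro i hi
          rw [Finset.mem_union] at hi
          rcases hi with hi | hi
          · have := Finsupp.support_single_subset hi
            simp at this
            simp [this]
          · have := Finsupp.support_single_subset hi
            simp at this
            simp [this]
        exact hdown _ huv.2 _ hs)
      rw [Finset.sum_congr rfl (fun k _ => h80_coeff_uv _ _ huv'), Finset.sum_add_distrib] at h1
      simp only [dotProduct, mul_neg, Finset.sum_neg_distrib]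
      linear_combination -h1
  obtain ⟨A, hA, hw⟩ := hrig _ hmot
  have hAll : A (Fin.last (d + 1)) (Fin.last (d + 1)) = 0 := by
    have h1 := congrFun (congrFun hA (Fin.last (d + 1))) (Fin.last (d + 1))
    rw [Matrix.transpose_apply, Matrix.neg_apply] at h1
    have h2 : (2 : K) * A (Fin.last (d + 1)) (Fin.last (d + 1)) = 0 := by linear_combination h1
    exact (mul_eq_zero.mp h2).resolve_left two_ne_zero
  have hco : ∀ v : Fin n, MvPolynomial.coeff (Finsupp.single v 1) ℓ =
      ∑ k : Fin (d + 2), A (Fin.last (d + 1)) k * c (k, v) := by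
    intro v
    have h1 := congrFun (hw v (Finset.mem_univ _)) (Fin.last (d + 1))
    simp only [G, if_true, MvPolynomial.coeff_neg, neg_neg, Matrix.mulVec, dotProduct] at h1
    exact h1
  have hfin : ℓ = ∑ k : Fin (d + 2), MvPolynomial.C (A (Fin.last (d + 1)) k) *
      h80_lin (fun i => c (k, i)) := by
    conv_lhs => rw [h80_linear ℓ hℓ]
    unfold h80_lin
    simp only [hco, map_sum, map_mul, Finset.sum_mul, Finset.mul_sum]
    rw [Finset.sum_comm]
    refine Finset.sum_congr rfl fun k _ => Finset.sum_congr rfl fun v _ => ?_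
    ring
  rw [hfin]
  apply Ideal.mem_sup_right
  apply Ideal.sum_mem
  intro k _
  by_cases hk : k = Fin.last (d + 1)
  · rw [hk, hAll, map_zero, zero_mul]
    exact Ideal.zero_mem _
  · apply Ideal.mul_mem_left
    apply Ideal.subset_span
    refine ⟨k, ?_, rfl⟩
    show (k : ℕ) ≤ d
    have h1 := k.2
    have h2 : (k : ℕ) ≠ d + 1 := fun h => hk (Fin.ext (by simpa using h))
    omega

end Pool.Agent.helper58.FS
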